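import Pool.Agent.H75.PT.Targets

/-! Board `bwp_modules`, row CHE: the inequality of Chebyshev for the centered sums. -/

set_option autoImplicit false

open List Finset Pool.Agent.H68.TG Pool.Agent.H75.RW Pool.Agent.H70.PT Pool.Agent.H75.PT

namespace Pool.Agent.H1.BW

/-- Markov -/
private theorem mkv {r m : ℕ} (p : (Fin r → ℕ) → (Fin r → ℕ) → Prop)
    (F : (Fin r → ℕ) → (Fin r → ℕ) → ℝ) (h0 : ∀ X Y, 0 ≤ F X Y)
    (h1 : ∀ X Y, p X Y → 1 ≤ F X Y) : NN r m p ≤ Pool.Agent.H70.PT.SS r m F := by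
  classical
  unfold NN Pool.Agent.H70.PT.SS
  rw [Set.ncard_eq_toFinset_card', ← Fintype.sum_prod_type']
  have h2 : ((Set.toFinset {q : (Fin r → Fin (2 ^ m)) × (Fin r → Fin (2 ^ m)) |
      p (fun i => q.1 i) (fun i => q.2 i)}).card : ℝ) =
      ∑ q ∈ Set.toFinset {q : (Fin r → Fin (2 ^ m)) × (Fin r → Fin (2 ^ m)) |
        p (fun i => q.1 i) (fun i => q.2 i)}, (1 : ℝ) := by
    rw [Finset.sum_const, nsmul_eq_mul, mul_one]
  rw [h2]
  calc _ ≤ ∑ q ∈ Set.toFinset {q : (Fin r → Fin (2 ^ m)) × (Fin r → Fin (2 ^ m)) |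
        p (fun i => q.1 i) (fun i => q.2 i)},
        F (fun i => (q.1 i : ℕ)) (fun i => (q.2 i : ℕ)) := by
        refine Finset.sum_le_sum fun q hq => h1 _ _ ?_
        simpa using hq
    _ ≤ _ := Finset.sum_le_sum_of_subset_of_nonneg (Finset.subset_univ _)
        (fun q _ _ => h0 _ _)

private theorem SS_bound {r l : ℕ} (F : (Fin r → ℕ) → (Fin r → ℕ) → ℝ) (K : ℝ)
    (h : ∀ X Y : Fin r → ℕ, (∀ i, X i < 2 ^ l) → (∀ i, Y i < 2 ^ l) → F X Y ≤ K) :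
    Pool.Agent.H70.PT.SS r l F ≤ (4 ^ l) ^ r * K := by
  unfold Pool.Agent.H70.PT.SS
  have h1 : (∑ X : Fin r → Fin (2 ^ l), ∑ Y : Fin r → Fin (2 ^ l),
      F (fun i => X i) (fun i => Y i)) ≤
      ∑ _X : Fin r → Fin (2 ^ l), ∑ _Y : Fin r → Fin (2 ^ l), K :=
    Finset.sum_le_sum fun X _ => Finset.sum_le_sum fun Y _ =>
      h _ _ (fun i => (X i).2) (fun i => (Y i).2)
  refine h1.trans (le_of_eq ?_)
  simp only [Finset.sum_const, Finset.card_univ, Fintype.card_fun, Fintype.card_fin,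
    nsmul_eq_mul]
  push_cast
  rw [← mul_assoc, ← mul_pow, ← mul_pow]
  norm_num

private theorem che_core {r m : ℕ} (S : (Fin r → ℕ) → (Fin r → ℕ) → ℝ) (A e : ℝ)
    (hr : 1 ≤ r) (he : 0 < e)
    (h : Pool.Agent.H70.PT.SS r m (fun X Y => S X Y ^ 2) ≤ (4 ^ m) ^ r * (r * (2 ^ m) ^ 2 * A)) :
    NN r m (fun X Y => e * r * 2 ^ m < |S X Y|) ≤ A / (e ^ 2 * r) * (4 ^ m) ^ r := by
  have hr0 : (0 : ℝ) < r := by exact_mod_cast hr
  have hc : (0 : ℝ) < e * r * 2 ^ m := by positivity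
  have h1 : NN r m (fun X Y => e * r * 2 ^ m < |S X Y|) ≤
      Pool.Agent.H70.PT.SS r m (fun X Y => S X Y ^ 2 / (e * r * 2 ^ m) ^ 2) := by
    refine mkv _ _ (fun X Y => by positivity) fun X Y hXY => ?_
    rw [le_div_iff₀ (by positivity), one_mul, ← sq_abs (S X Y)]
    exact pow_le_pow_left₀ hc.le hXY.le 2
  have h2 : Pool.Agent.H70.PT.SS r m (fun X Y => S X Y ^ 2 / (e * r * 2 ^ m) ^ 2) =
      Pool.Agent.H70.PT.SS r m (fun X Y => S X Y ^ 2) / (e * r * 2 ^ m) ^ 2 := by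
    unfold Pool.Agent.H70.PT.SS
    rw [Finset.sum_div]
    refine Finset.sum_congr rfl fun X _ => ?_
    rw [Finset.sum_div]
  rw [h2] at h1
  refine h1.trans ?_
  rw [div_le_iff₀ (by positivity)]
  refine h.trans (le_of_eq ?_)
  field_simp

theorem pf_CHE (HIB : Pool.Agent.H70.PT.T_HIB) (VRC : T_VRC) (TAI : T_TAI) :
    Pool.Agent.H75.PT.T_CHE := by
  intro r t m A e htm hr hA he
  obtain ⟨l, rfl⟩ : ∃ l, m = t + l := ⟨m - t, by omega⟩
  have hbm : bm t (fun j => cu t A j ^ 2) ≤ A := (TAI t A 1 hA one_pos).2.2.2.2.1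
  have hv : ∀ v : Fin r → ℕ, (∀ i, v i < 2 ^ l) →
      ∀ i, |(2 : ℝ) ^ t * (v i : ℝ)| ≤ 2 ^ (t + l) := by
    intro v hv i
    rw [abs_of_nonneg (by positivity), pow_add]
    refine mul_le_mul_of_nonneg_left ?_ (by positivity)
    exact_mod_cast (hv i).le
  have hfin : (4 ^ l : ℝ) ^ r * ((4 ^ r) ^ t * (r * (2 ^ (t + l)) ^ 2 * A)) =
      (4 ^ (t + l)) ^ r * (r * (2 ^ (t + l)) ^ 2 * A) := by
    rw [← mul_assoc, pow_add (4 : ℝ) t l, mul_pow ((4 : ℝ) ^ t), ← pow_mul 4 r t,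
      ← pow_mul 4 t r, mul_comm r t, mul_comm ((4 : ℝ) ^ (t * r))]
  constructor
  · refine che_core _ A e hr he ?_
    have h1 := HIB r t l (fun P _ v _ =>
      (∑ i, (2 ^ t * (v i : ℝ)) * (cu t A (P i) - bm t (cu t A))) ^ 2)
    have h2 : Pool.Agent.H70.PT.SS r (t + l) (fun X Y => s1 t A X Y ^ 2) =
        Pool.Agent.H70.PT.SS r l (fun v _ => Pool.Agent.H70.PT.tot (fun P _ =>
          (∑ i, (2 ^ t * (v i : ℝ)) * (cu t A (P i) - bm t (cu t A))) ^ 2)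
          t false (fun _ => 0) (fun _ => 0)) := h1
    rw [h2, ← hfin]
    refine SS_bound _ _ fun v w hv1 _ => ?_
    have h3 := (VRC r t (fun i => 2 ^ t * (v i : ℝ)) (2 ^ (t + l)) (cu t A)
      (hv v hv1)).1
    refine h3.trans ?_
    refine mul_le_mul_of_nonneg_left ?_ (by positivity)
    exact mul_le_mul_of_nonneg_left hbm (by positivity)
  · refine che_core _ A e hr he ?_
    have h1 := HIB r t l (fun _ Q _ w =>
      (∑ i, (2 ^ t * (w i : ℝ)) * (cu t A (Q i) - bm t (cu t A))) ^ 2)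
    have h2 : Pool.Agent.H70.PT.SS r (t + l) (fun X Y => s2 t A X Y ^ 2) =
        Pool.Agent.H70.PT.SS r l (fun _ w => Pool.Agent.H70.PT.tot (fun _ Q =>
          (∑ i, (2 ^ t * (w i : ℝ)) * (cu t A (Q i) - bm t (cu t A))) ^ 2)
          t false (fun _ => 0) (fun _ => 0)) := h1
    rw [h2, ← hfin]
    refine SS_bound _ _ fun v w _ hw1 => ?_
    have h3 := (VRC r t (fun i => 2 ^ t * (w i : ℝ)) (2 ^ (t + l)) (cu t A)
      (hv w hw1)).2
    refine h3.trans ?_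
    refine mul_le_mul_of_nonneg_left ?_ (by positivity)
    exact mul_le_mul_of_nonneg_left hbm (by positivity)

end Pool.Agent.H1.BW
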