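import Pool.Agent.H75.PT.Targets

/-! Board `bwp_modules`, row TOC: all the counters of the blocks of `0`. -/

set_option autoImplicit false

open List Finset Pool.Agent.H68.TG Pool.Agent.H75.RW Pool.Agent.H70.PT Pool.Agent.H75.PT

namespace Pool.Agent.H1.BW

private theorem pst_succ {r : ℕ} (a : Bool) (X : Fin r → ℕ) (i : Fin r) :
    pst a X ((i : ℕ) + 1) = xor (pst a X i) (X i).bodd := by
  unfold pst
  have h1 : (∑ j : Fin r, if (j : ℕ) < (i : ℕ) + 1 then X j else 0) =
      (∑ j : Fin r, if (j : ℕ) < (i : ℕ) then X j else 0) + X i := by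
    have h2 : ∀ j : Fin r, (if (j : ℕ) < (i : ℕ) + 1 then X j else 0) =
        (if (j : ℕ) < (i : ℕ) then X j else 0) + (if j = i then X j else 0) := by
      intro j
      by_cases h3 : j = i
      · subst h3
        simp
      · have h4 : (j : ℕ) ≠ (i : ℕ) := fun h => h3 (Fin.ext h)
        by_cases h5 : (j : ℕ) < (i : ℕ)
        · rw [if_pos (by omega), if_pos h5, if_neg h3, add_zero]
        · rw [if_neg (by omega), if_neg h5, if_neg h3]
    rw [Finset.sum_congr rfl fun j _ => h2 j, Finset.sum_add_distrib]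
    congr 1
    rw [Finset.sum_ite_eq' Finset.univ i, if_pos (Finset.mem_univ _)]
  rw [h1, Nat.bodd_add, Bool.xor_assoc]

private theorem pst_zero {r : ℕ} (a : Bool) (X : Fin r → ℕ) : pst a X 0 = a := by
  unfold pst
  simp

private theorem bodd_tn {r : ℕ} (c : Fin r → Bool) (i : Fin r) : (tn c i).bodd = c i := by
  unfold tn
  cases c i <;> rfl

private theorem inj {r : ℕ} (a : Bool) :
    Function.Injective fun (c : Fin r → Bool) (i : Fin r) => pst a (tn c) ((i : ℕ) + 1) := by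
  intro c c' h
  have h1 : ∀ i : ℕ, i ≤ r → pst a (tn c) i = pst a (tn c') i := by
    intro i hi
    rcases i with _ | i
    · rw [pst_zero, pst_zero]
    · exact congrFun h ⟨i, by omega⟩
  funext i
  have h2 := congrFun h i
  simp only [] at h2
  rw [pst_succ, pst_succ, h1 i i.2.le, bodd_tn, bodd_tn] at h2
  exact Bool.xor_right_inj.1 h2

/-- the inner sums -/
private noncomputable def BB {r : ℕ} (g : Fin r → ℕ → ℝ) (n : ℕ) (i : Fin r) (k : ℕ) : ℝ :=
  ∑ j ∈ Finset.range (n + 1), (n.choose j : ℝ) * g i (k + j)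

private theorem BB_succ {r : ℕ} (g : Fin r → ℕ → ℝ) (n : ℕ) (i : Fin r) (k : ℕ) :
    BB g (n + 1) i k = BB g n i (k + 1) + BB g n i k := by
  unfold BB
  rw [Finset.sum_range_succ' (fun j => ((n + 1).choose j : ℝ) * g i (k + j)) (n + 1)]
  have h1 : ∀ j ∈ Finset.range (n + 1), ((n + 1).choose (j + 1) : ℝ) * g i (k + (j + 1)) =
      (n.choose j : ℝ) * g i (k + 1 + j) + (n.choose (j + 1) : ℝ) * g i (k + (j + 1)) := by
    intro j _
    have h3 : k + 1 + j = k + (j + 1) := by omega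
    rw [h3, Nat.choose_succ_succ, Nat.cast_add]
    ring
  rw [Finset.sum_congr rfl h1, Finset.sum_add_distrib, add_assoc]
  congr 1
  have h2 := Finset.sum_range_succ' (fun j => (n.choose j : ℝ) * g i (k + j)) (n + 1)
  rw [Finset.sum_range_succ] at h2
  rw [Nat.choose_succ_self, Nat.cast_zero, zero_mul, add_zero] at h2
  rw [h2]
  simp

private theorem sum_cons {m : ℕ} (Ψ : (Fin (m + 1) → Bool) → ℝ) :
    ∑ e, Ψ e = ∑ b : Bool, ∑ v : Fin m → Bool, Ψ (Fin.cons b v) := by
  rw [← (Fin.consEquiv (fun _ : Fin (m + 1) => Bool)).sum_comp, Fintype.sum_prod_type]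
  rfl

private theorem sum_snoc {m : ℕ} (Ψ : (Fin (m + 1) → Bool) → ℝ) :
    ∑ e, Ψ e = ∑ b : Bool, ∑ v : Fin m → Bool, Ψ (Fin.snoc (α := fun _ => Bool) v b) := by
  rw [← (Fin.snocEquiv (fun _ : Fin (m + 1) => Bool)).sum_comp, Fintype.sum_prod_type]
  rfl

private theorem sum_A {m : ℕ} (a : Bool) (F : Bool → ℝ) :
    ∑ c : Fin (m + 1) → Bool, F (pst a (tn c) (m + 1)) = 2 ^ m * ∑ b, F b := by
  have h3 := (Finite.injective_iff_bijective.1 (inj (r := m + 1) a)).sum_comp
    (fun e : Fin (m + 1) → Bool => F (e (Fin.last m)))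
  have h4 : ∑ c : Fin (m + 1) → Bool, F (pst a (tn c) (m + 1)) =
      ∑ e : Fin (m + 1) → Bool, F (e (Fin.last m)) := h3
  rw [h4, sum_snoc, Finset.mul_sum]
  refine Finset.sum_congr rfl fun b _ => ?_
  have h5 : ∀ v : Fin m → Bool,
      F ((Fin.snoc (α := fun _ => Bool) v b : Fin (m + 1) → Bool) (Fin.last m)) = F b := by
    intro v
    rw [Fin.snoc_last]
  rw [Finset.sum_congr rfl fun v _ => h5 v, Finset.sum_const, Finset.card_univ,
    Fintype.card_fun, Fintype.card_bool, Fintype.card_fin, nsmul_eq_mul]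
  push_cast
  ring

private theorem sum_B {m : ℕ} (b : Bool) (Ψ : (Fin (m + 1) → Bool) → ℝ) :
    ∑ d : Fin (m + 1) → Bool, Ψ (fun i => pst b (tn d) (i : ℕ)) =
      2 * ∑ v : Fin m → Bool, Ψ (Fin.cons b v) := by
  have h3 := (Finite.injective_iff_bijective.1 (inj (r := m + 1) b)).sum_comp
    (fun e : Fin (m + 1) → Bool => Ψ (Fin.cons b fun i : Fin m => e i.castSucc))
  have h4 : ∀ d : Fin (m + 1) → Bool, (fun i : Fin (m + 1) => pst b (tn d) (i : ℕ)) =
      (Fin.cons b fun i : Fin m => pst b (tn d) ((i.castSucc : ℕ) + 1) :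
        Fin (m + 1) → Bool) := by
    intro d
    funext i
    refine Fin.cases ?_ (fun j => ?_) i
    · rw [Fin.cons_zero]
      exact pst_zero b (tn d)
    · rw [Fin.cons_succ]
      rfl
  rw [Finset.sum_congr rfl fun d _ => congrArg Ψ (h4 d)]
  refine Eq.trans h3 ?_
  rw [sum_snoc]
  have h5 : ∀ (w : Bool) (v : Fin m → Bool),
      (fun i : Fin m => (Fin.snoc (α := fun _ => Bool) v w : Fin (m + 1) → Bool) i.castSucc) =
        v := by
    intro w v
    funext i
    exact Fin.snoc_castSucc (α := fun _ => Bool) w v i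
  have h6 : ∀ w : Bool, (∑ v : Fin m → Bool, Ψ (Fin.cons b fun i : Fin m =>
      (Fin.snoc (α := fun _ => Bool) v w : Fin (m + 1) → Bool) i.castSucc)) =
      ∑ v : Fin m → Bool, Ψ (Fin.cons b v) := by
    intro w
    refine Finset.sum_congr rfl fun v _ => ?_
    rw [h5]
  rw [Finset.sum_congr rfl fun w _ => h6 w, Finset.sum_const, Finset.card_univ,
    Fintype.card_bool, nsmul_eq_mul]
  push_cast
  ring

private theorem sum_AB {m : ℕ} (a : Bool) (Ψ : (Fin (m + 1) → Bool) → ℝ) :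
    ∑ c : Fin (m + 1) → Bool, ∑ d : Fin (m + 1) → Bool,
      Ψ (fun i => pst (pst a (tn c) (m + 1)) (tn d) (i : ℕ)) =
      2 ^ (m + 1) * ∑ e, Ψ e := by
  rw [Finset.sum_congr rfl fun c _ => sum_B (pst a (tn c) (m + 1)) Ψ]
  rw [sum_A a (fun b => 2 * ∑ v : Fin m → Bool, Ψ (Fin.cons b v)), ← Finset.mul_sum,
    ← sum_cons, pow_succ]
  ring

theorem pf_TOC : Pool.Agent.H75.PT.T_TOC := by
  intro r n
  induction n with
  | zero =>
    intro a P Q g
    simp [Pool.Agent.H70.PT.tot]
  | succ n ih =>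
    intro a P Q g
    have h1 : Pool.Agent.H70.PT.tot (fun P _ => ∏ i, g i (P i)) (n + 1) a P Q =
        ∑ c : Fin r → Bool, ∑ d : Fin r → Bool,
          (2 ^ r : ℝ) ^ n *
            ∏ i, BB g n i (P i + cond (pst (pst a (tn c) r) (tn d) (i : ℕ)) 1 0) := by
      rw [Pool.Agent.H70.PT.tot]
      refine Finset.sum_congr rfl fun c _ => Finset.sum_congr rfl fun d _ => ?_
      rw [ih]
      rfl
    rw [h1]
    rcases r with _ | m
    · simp
    · rw [sum_AB a (fun e => (2 ^ (m + 1) : ℝ) ^ n * ∏ i, BB g n i (P i + cond (e i) 1 0)),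
        ← Finset.mul_sum, ← mul_assoc, ← pow_succ']
      congr 1
      have h4 := Finset.prod_univ_sum (fun _ : Fin (m + 1) => (Finset.univ : Finset Bool))
        (fun i b => BB g n i (P i + cond b 1 0))
      rw [Fintype.piFinset_univ] at h4
      rw [← h4]
      refine Finset.prod_congr rfl fun i _ => ?_
      rw [Fintype.sum_bool]
      exact (BB_succ g n i (P i)).symm

end Pool.Agent.H1.BW
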